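import Pool.Agent.Helper6.TRI.Defs

/-!
# TRI, block B8: `w = ∏ (L i) ^ (a i)` is algebraic over `k` if it has value `0` everywhere
-/

set_option autoImplicit false

namespace Pool.Agent.TRI

open Module Pool.Agent.SQ

section

variable {k E : Type*} [Field k] [Field E] [Algebra k E]

private theorem rv_one61 {ω : E → ℝ} (h : RV k ω) : ω 1 = 0 := by
  have := h.alg 1 one_ne_zero
  rwa [map_one] at this

private theorem rv_inv61 {ω : E → ℝ} (h : RV k ω) {x : E} (hx : x ≠ 0) : ω x⁻¹ = -ω x := by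
  have h1 := h.mul x x⁻¹ hx (inv_ne_zero hx)
  rw [mul_inv_cancel₀ hx, rv_one61 h] at h1
  linarith

private theorem rv_neg61 {ω : E → ℝ} (h : RV k ω) {x : E} (hx : x ≠ 0) : ω (-x) = ω x := by
  have h1 : ω ((-1 : k) • x) = ω x := h.smul (-1) x (by simp) hx
  rwa [neg_one_smul] at h1

private theorem rv_pow61 {ω : E → ℝ} (h : RV k ω) {x : E} (hx : x ≠ 0) (n : ℕ) : ω (x ^ n) = n * ω x := by
  induction n with
  | zero => simp [rv_one61 h]
  | succ n ih =>
    rw [pow_succ, h.mul _ _ (pow_ne_zero n hx) hx, ih]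
    push_cast
    ring

private theorem rv_prod61 {ω : E → ℝ} (h : RV k ω) {ι : Type*} (s : Finset ι) (L : ι → E) (hL : ∀ i, L i ≠ 0) (n : ι → ℕ) :
    ω (∏ i ∈ s, L i ^ n i) = ∑ i ∈ s, n i * ω (L i) := by
  classical
  induction s using Finset.induction_on with
  | empty => simp [rv_one61 h]
  | insert i s hi ih =>
    rw [Finset.prod_insert hi, Finset.sum_insert hi, h.mul _ _ (pow_ne_zero _ (hL i)) (Finset.prod_ne_zero_iff.2 fun j _ => pow_ne_zero _ (hL j)),
      ih, rv_pow61 h (hL i)]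

private theorem prod_mem61 {V : Submodule k E} {ι : Type*} (s : Finset ι) (L : ι → E) (hL : ∀ i, L i ∈ V) (n : ι → ℕ) :
    ∏ i ∈ s, L i ^ n i ∈ V ^ (∑ i ∈ s, n i) := by
  classical
  induction s using Finset.induction_on with
  | empty =>
    rw [Finset.prod_empty, Finset.sum_empty, pow_zero]
    exact Submodule.one_le.1 le_rfl
  | insert i s hi ih =>
    rw [Finset.prod_insert hi, Finset.sum_insert hi, pow_add]
    exact Submodule.mul_mem_mul (Submodule.pow_mem_pow V (hL i) (n i)) ih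

/-- a valuation which is trivial on `k(w)` is trivial on the elements algebraic over `k(w)` -/
private theorem alg_nonneg61 {ω : E → ℝ} (h : RV k ω) (F : IntermediateField k E) (hF : ∀ x ∈ F, x ≠ 0 → ω x = 0) {y : E}
    (hy : y ≠ 0) (ha : IsAlgebraic F y) : 0 ≤ ω y := by
  by_contra hneg
  push Not at hneg
  have hint : IsIntegral F y := ha.isIntegral
  have h0 : minpoly F y ≠ 0 := minpoly.ne_zero hint
  have hm := minpoly.monic hint
  have hd : 0 < (minpoly F y).natDegree := minpoly.natDegree_pos hint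
  obtain ⟨n, hn⟩ : ∃ n, (minpoly F y).natDegree = n + 1 := ⟨_, (Nat.succ_pred_eq_of_pos hd).symm⟩
  have h1 := minpoly.aeval F y
  rw [Polynomial.aeval_eq_sum_range, hn, Finset.sum_range_succ] at h1
  have hlc : (minpoly F y).coeff (n + 1) = 1 := by
    rw [← hn]
    exact hm.coeff_natDegree
  rw [hlc, one_smul] at h1
  have h2 : ∑ i ∈ Finset.range (n + 1), (minpoly F y).coeff i • y ^ i ∈ lev h (n * ω y) := by
    refine Submodule.sum_mem _ fun i hi => ?_
    have hi' : i ≤ n := Nat.lt_succ_iff.1 (Finset.mem_range.1 hi)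
    by_cases hc : (minpoly F y).coeff i = 0
    · rw [hc, zero_smul]
      exact Submodule.zero_mem _
    · right
      rw [IntermediateField.smul_def, smul_eq_mul, h.mul _ _ (by simpa using hc) (pow_ne_zero _ hy),
        hF _ ((minpoly F y).coeff i).2 (by simpa using hc), rv_pow61 h hy, zero_add]
      have : (i : ℝ) ≤ n := by exact_mod_cast hi'
      nlinarith
  have h3 : ∑ i ∈ Finset.range (n + 1), (minpoly F y).coeff i • y ^ i = -y ^ (n + 1) := by
    linear_combination h1
  rw [h3] at h2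
  rcases h2 with h2 | h2
  · exact pow_ne_zero _ hy (neg_eq_zero.1 h2)
  · rw [rv_neg61 h (pow_ne_zero _ hy), rv_pow61 h hy] at h2
    push_cast at h2
    nlinarith

theorem alg_of_val {A : Type*} [Fintype A] {V : Submodule k E} [FiniteDimensional k V] (hC : Crv V) {ω : A → E → ℝ} {c : A → ℝ}
    {r : ℕ} {h : ℝ} (hD : Dat V ω c r h) {q : ℕ} (L : Fin q → E) (hL : ∀ i, L i ∈ V) (hL0 : ∀ i, L i ≠ 0)
    (I2 : ∀ i, h ≤ ∑ α, (ω α (L i) + c α)) (hnt : ∃ α, ¬ Triv (ω α)) (a : Fin q → ℤ) (ha : ∑ i, a i = 0)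
    (hw : ∀ α, ω α (∏ i, L i ^ a i) = 0) : IsAlgebraic k (∏ i, L i ^ a i) := by
  classical
  by_contra htr
  set w : E := ∏ i, L i ^ a i with hwdef
  have hw0 : w ≠ 0 := Finset.prod_ne_zero_iff.2 fun i _ => zpow_ne_zero _ (hL0 i)
  set P : E := ∏ i, L i ^ (a i).toNat with hP
  set B : E := ∏ i, L i ^ (-a i).toNat with hB
  set n : ℕ := ∑ i, (-a i).toNat with hn
  have hn' : ∑ i, (a i).toNat = n := by
    have h1 : ∀ i, (((a i).toNat : ℕ) : ℤ) - (((-a i).toNat : ℕ) : ℤ) = a i := fun i => Int.toNat_sub_toNat_neg (a i)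
    have h2 : ((∑ i, (a i).toNat : ℕ) : ℤ) - ((∑ i, (-a i).toNat : ℕ) : ℤ) = 0 := by
      push_cast
      rw [← Finset.sum_sub_distrib, ← ha]
      refine Finset.sum_congr rfl fun i _ => ?_
      have := h1 i
      exact this
    have h3 : ((∑ i, (a i).toNat : ℕ) : ℤ) = ((n : ℕ) : ℤ) := by linarith
    exact_mod_cast h3
  have hB0 : B ≠ 0 := Finset.prod_ne_zero_iff.2 fun i _ => pow_ne_zero _ (hL0 i)
  have hPw : P = w * B := by
    rw [hP, hwdef, hB, ← Finset.prod_mul_distrib]
    refine Finset.prod_congr rfl fun i _ => ?_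
    rw [← zpow_natCast (L i) (-a i).toNat, ← zpow_add₀ (hL0 i), ← zpow_natCast]
    congr 1
    have := Int.toNat_sub_toNat_neg (a i)
    omega
  have hPm : P ∈ V ^ n := by
    rw [← hn']
    exact prod_mem61 _ L hL _
  have hBm : B ∈ V ^ n := prod_mem61 _ L hL _
  -- the values of `B`
  have hBv : (n : ℝ) * h ≤ ∑ α, (ω α B + n * c α) := by
    have h1 : ∀ α, ω α B + n * c α = ∑ i, ((-a i).toNat : ℝ) * (ω α (L i) + c α) := by
      intro α
      rw [hB, rv_prod61 (hD.rv α) _ L hL0, hn]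
      push_cast
      rw [Finset.sum_mul, ← Finset.sum_add_distrib]
      exact Finset.sum_congr rfl fun i _ => by ring
    rw [Finset.sum_congr rfl fun α _ => h1 α, Finset.sum_comm, hn]
    push_cast
    rw [Finset.sum_mul]
    refine Finset.sum_le_sum fun i _ => ?_
    rw [← Finset.mul_sum]
    exact mul_le_mul_of_nonneg_left (I2 i) (Nat.cast_nonneg _)
  have hne : ∀ g : Polynomial k, g ≠ 0 → Polynomial.aeval w g ≠ 0 := fun g hg h0 => htr ⟨g, hg, h0⟩
  have hnn : ∀ g : Polynomial k, g ≠ 0 → ∀ α, 0 ≤ ω α (Polynomial.aeval w g) := by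
    intro g hg α
    have h1 : Polynomial.aeval w g ∈ lev (hD.rv α) 0 := by
      rw [Polynomial.aeval_eq_sum_range]
      refine Submodule.sum_mem _ fun j _ => Submodule.smul_mem _ _ (Or.inr ?_)
      rw [rv_pow61 (hD.rv α) hw0, hw α, mul_zero]
    exact h1.resolve_left (hne g hg)
  have hzero : ∀ g : Polynomial k, g ≠ 0 → ∀ α, ω α (Polynomial.aeval w g) = 0 := by
    intro g hg
    set d := g.natDegree with hd
    set x : E := Polynomial.aeval w g * B ^ d with hx
    have hxm : x ∈ V ^ (n * d) := by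
      have h0 : x = ∑ j ∈ Finset.range (d + 1), g.coeff j • w ^ j * B ^ d := by
        rw [hx, Polynomial.aeval_eq_sum_range, Finset.sum_mul]
      rw [h0]
      refine Submodule.sum_mem (V ^ (n * d)) fun j hj => ?_
      have hj' : j ≤ d := Nat.lt_succ_iff.1 (Finset.mem_range.1 hj)
      have h1 : g.coeff j • w ^ j * B ^ d = g.coeff j • (P ^ j * B ^ (d - j)) := by
        rw [smul_mul_assoc, hPw, mul_pow, mul_assoc, ← pow_add, Nat.add_sub_cancel' hj']
      rw [h1]
      refine Submodule.smul_mem _ _ ?_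
      have h2 : n * d = n * j + n * (d - j) := by rw [← mul_add, Nat.add_sub_cancel' hj']
      rw [h2, pow_add, pow_mul, pow_mul]
      exact Submodule.mul_mem_mul (Submodule.pow_mem_pow _ hPm j) (Submodule.pow_mem_pow _ hBm (d - j))
    have hx0 : x ≠ 0 := mul_ne_zero (hne g hg) (pow_ne_zero _ hB0)
    have h1 := hD.I1 (n * d) x hxm hx0
    have h2 : ∀ α, ω α x = ω α (Polynomial.aeval w g) + d * ω α B := by
      intro α
      rw [hx, (hD.rv α).mul _ _ (hne g hg) (pow_ne_zero _ hB0), rv_pow61 (hD.rv α) hB0]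
    have h3 : ∑ α, ω α (Polynomial.aeval w g) ≤ 0 := by
      have h4 : ∑ α, (ω α x + ((n * d : ℕ) : ℝ) * c α) = ∑ α, ω α (Polynomial.aeval w g) + d * ∑ α, (ω α B + n * c α) := by
        rw [Finset.mul_sum, ← Finset.sum_add_distrib]
        refine Finset.sum_congr rfl fun α _ => ?_
        rw [h2 α]
        push_cast
        ring
      rw [h4] at h1
      have h5 : (d : ℝ) * ((n : ℝ) * h) ≤ d * ∑ α, (ω α B + n * c α) := mul_le_mul_of_nonneg_left hBv (Nat.cast_nonneg _)
      push_cast at h1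
      nlinarith
    intro α
    have h4 : 0 ≤ ∑ α, ω α (Polynomial.aeval w g) := Finset.sum_nonneg fun α _ => hnn g hg α
    exact (Finset.sum_eq_zero_iff_of_nonneg fun α _ => hnn g hg α).1 (le_antisymm h3 h4) α (Finset.mem_univ _)
  -- the valuations are trivial on `k(w)`
  have hF : ∀ α, ∀ x ∈ IntermediateField.adjoin k {w}, x ≠ 0 → ω α x = 0 := by
    intro α x hx hx0
    obtain ⟨f, g, hfg⟩ := (IntermediateField.mem_adjoin_simple_iff k x).1 hx
    have hf : f ≠ 0 := by
      rintro rfl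
      rw [map_zero, zero_div] at hfg
      exact hx0 hfg
    have hg : g ≠ 0 := by
      rintro rfl
      rw [map_zero, div_zero] at hfg
      exact hx0 hfg
    rw [hfg, div_eq_mul_inv, (hD.rv α).mul _ _ (hne f hf) (inv_ne_zero (hne g hg)), rv_inv61 (hD.rv α) (hne g hg),
      hzero f hf, hzero g hg, neg_zero, add_zero]
  obtain ⟨α, hα⟩ := hnt
  apply hα
  intro y hy
  have h1 : ∀ z : E, z ≠ 0 → 0 ≤ ω α z := fun z hz => alg_nonneg61 (hD.rv α) _ (hF α) hz (hC.alg w z htr)
  have h2 := h1 y⁻¹ (inv_ne_zero hy)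
  rw [rv_inv61 (hD.rv α) hy] at h2
  linarith [h1 y hy]

end

end Pool.Agent.TRI
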